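import Pool.Agent.helper42.CQ.SpecC

set_option autoImplicit false

namespace Pool.Agent.helper42.CQ

open Finset Pool.Agent.helper24.CG

theorem CAS (hALT : ALT_stmt) (hBET : BET_stmt) (hWTC : WTC_stmt) : CAS_stmt := by
  intro N m b q p M k s c R a χ l H K hN hm hb hq hp hc hM hk hs hH hK hcl hsm hR hl hlq ha1 ha2
    hχ hχa hχ1 hχ2 h0 h1 h2
  have hapos : 0 < a := by linarith
  have hl0 : 0 < l := by
    have : (0 : ℝ) ≤ 2 * (m : ℝ) * (s : ℝ) := by positivity
    linarith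
  have hla : l ≤ l / a := by
    rw [le_div_iff₀ hapos]
    nlinarith
  rcases hALT N m b q p M k s c R a χ l H K hN hm hb hq hp hc hM hk hs hH hK hsm hR hl hapos ha2
    hχ hχa hχ1 hχ2 (by linarith) with h | ⟨Y, hGY, hYK, hYc, hgf⟩
  · exact Or.inl h
  · refine Or.inr (hBET N m b q M s l a (aa m b) H K Y hm hb hM hH hK hcl hGY hYK hgf hl0.le hlq
      ha1 ha2 h0 h1 ?_ ?_)
    · have : (0 : ℝ) ≤ 2 * (m : ℝ) * (s : ℝ) := by positivity
      linarith
    · intro e he
      obtain ⟨E, hE, heE⟩ := hcl e he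
      exact (hWTC N m b K H hm hb hH E hE e heE he).1

end Pool.Agent.helper42.CQ
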