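import Pool.Agent.helper42.CQ.SpecC

set_option autoImplicit false

namespace Pool.Agent.helper42.CQ

open Finset Pool.Agent.helper24.CG

private theorem GS1_kF (N m b q p : ℕ) : 0 ≤ kF N m b q p := by
  unfold kF
  apply Real.log_nonneg
  have h1 : (0 : ℝ) ≤ 6 * (m : ℝ) * (q : ℝ) ^ 2 := by positivity
  have h2 : (0 : ℝ) ≤ 3 * ((q : ℝ) + 1) * (nn N m b q p : ℝ) := by positivity
  linarith

private theorem GS1_kP (N q p : ℕ) (c : ℝ) (hN : 1 ≤ N) (hc : 1 ≤ c) : 0 ≤ kP N q p c := by
  unfold kP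
  have h1 : 0 ≤ Real.log (6 * c * ((q : ℝ) + 1) ^ 3) := by
    apply Real.log_nonneg
    have h3 : (1 : ℝ) ≤ ((q : ℝ) + 1) ^ 3 := one_le_pow₀ (by linarith [Nat.cast_nonneg (α := ℝ) q])
    nlinarith
  have h2 : 0 ≤ Real.log (N : ℝ) := Real.log_nonneg (by exact_mod_cast hN)
  have h3 : (0 : ℝ) ≤ (q : ℝ) / (p : ℝ) * Real.log N := by positivity
  linarith

private theorem GS1_card {V : Type} [DecidableEq V] {A B C : Finset V} (h1 : A ⊆ B) (h2 : B ⊆ C) :
    ((C \ A).card : ℝ) = ((C \ B).card : ℝ) + ((B \ A).card : ℝ) := by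
  have h3 : (C \ A).card = (C \ B).card + (B \ A).card := by
    rw [Finset.card_sdiff_of_subset (h1.trans h2), Finset.card_sdiff_of_subset h2,
      Finset.card_sdiff_of_subset h1]
    have h4 := Finset.card_le_card h1
    have h5 := Finset.card_le_card h2
    omega
  rw [h3]
  push_cast
  rfl

theorem GS1 (hPY1 : PY1_stmt) (hCLO : CLO_stmt) (hGFB : GFB_stmt) (hREL : REL_stmt) : GS1_stmt := by
  intro N m b q p M c H X K Y xs
  induction xs with
  | nil =>
    intro B B₁ w hN hm hb hq hp hc hM hH hK hrl hWF hxs hch hBK hYB hB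
    refine ⟨B, w, hch, subset_rfl, hBK, by simp, ?_⟩
    simp [cst]
  | cons x xs ih =>
    intro B B₁ w hN hm hb hq hp hc hM hH hK hrl hWF hxs hch hBK hYB hB
    have hkF := GS1_kF N m b q p
    have hkP := GS1_kP N q p c hN hc
    have hx := hxs x List.mem_cons_self
    have hβ : 0 ≤ Real.log (1 + (b : ℝ) / (m : ℝ)) := by
      apply Real.log_nonneg
      have : (0 : ℝ) ≤ (b : ℝ) / (m : ℝ) := by positivity
      linarith
    obtain ⟨-, g2, g3, -, -⟩ := hGFB N m b K H
      (Real.log N / Real.log (1 + (b : ℝ) / (m : ℝ))) hm hb hH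
    obtain ⟨-, -, r3, -⟩ := hREL N M K hM
    -- first step: add the vertex
    have step1 : ∃ (B2 : Finset (Fin N)) (w2 : ℝ), Chain N m b q p c H X B2 w2 ∧ B ⊆ B2 ∧
        B2 ⊆ K ∧ x.1 ∈ B2 ∧
        w - Real.log (1 + (b : ℝ) / (m : ℝ)) * max 0
          (Real.log N / Real.log (1 + (b : ℝ) / (m : ℝ)) - ∑ u ∈ B₁, wt b m K H {x.1, u}) -
          ((B2 \ B).card : ℝ) * (kF N m b q p + kP N q p c) ≤ w2 := by
      by_cases hv : x.1 ∈ B
      · refine ⟨B, w, hch, subset_rfl, hBK, hv, ?_⟩
        have h1 : 0 ≤ Real.log (1 + (b : ℝ) / (m : ℝ)) * max 0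
            (Real.log N / Real.log (1 + (b : ℝ) / (m : ℝ)) - ∑ u ∈ B₁, wt b m K H {x.1, u}) :=
          mul_nonneg hβ (le_max_left _ _)
        simp only [Finset.sdiff_self, Finset.card_empty, Nat.cast_zero, zero_mul]
        linarith
      · obtain ⟨w2, hc2, hw2⟩ := hPY1 N m b q p c H X K B x.1 w hN hm hb hq hp hc hH hK hch hBK
          hx.1 hv
        refine ⟨insert x.1 B, w2, hc2, Finset.subset_insert _ _,
          Finset.insert_subset hx.1 hBK, Finset.mem_insert_self _ _, ?_⟩
        have h1 : wv b m K H x.1 B₁ ≤ wv b m K H x.1 B := (g3 x.1 B₁ B hB).2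
        have h2 : wv b m K H x.1 B₁ = ∑ u ∈ B₁, wt b m K H {x.1, u} :=
          g2 x.1 B₁ (fun h => hv (hB h))
        have h3 : max 0 (Real.log N / Real.log (1 + (b : ℝ) / (m : ℝ)) - wv b m K H x.1 B) ≤
            max 0 (Real.log N / Real.log (1 + (b : ℝ) / (m : ℝ)) -
              ∑ u ∈ B₁, wt b m K H {x.1, u}) := by
          apply max_le_max le_rfl
          rw [← h2]
          linarith
        have h4 := mul_le_mul_of_nonneg_left h3 hβ
        have h5 : ((insert x.1 B \ B).card : ℝ) = 1 := by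
          have : insert x.1 B \ B = {x.1} := by
            ext y
            simp only [Finset.mem_sdiff, Finset.mem_insert, Finset.mem_singleton]
            constructor
            · rintro ⟨h | h, h'⟩
              · exact h
              · exact absurd h h'
            · rintro rfl
              exact ⟨Or.inl rfl, hv⟩
          rw [this]
          simp
        rw [h5]
        linarith
    obtain ⟨B2, w2, hc2, hBB2, hB2K, hxB2, hw2⟩ := step1
    -- second step: closure
    obtain ⟨w3, hc3, hw3⟩ := hCLO N m b q p M c H X K B2 Y {x.1} w2 hM hH hK hc2 hB2K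
      (hYB.trans hBB2) (by simpa using hx.1) hrl hWF
      (by
        intro z hz
        rw [Finset.mem_singleton] at hz
        rw [hz]
        exact Or.inl hxB2)
    rw [Finset.singleton_biUnion] at hc3 hw3
    have hB3K : B2 ∪ cmp M K H x.1 ⊆ K := Finset.union_subset hB2K (r3 H x.1)
    obtain ⟨B', w', hc', hB3B', hB'K, hxs', hw'⟩ := ih (B2 ∪ cmp M K H x.1) (B₁ ∪ x.2) w3 hN hm
      hb hq hp hc hM hH hK hrl hWF (fun y hy => hxs y (List.mem_cons_of_mem _ hy)) hc3 hB3K
      ((hYB.trans hBB2).trans Finset.subset_union_left)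
      (Finset.union_subset ((hB.trans hBB2).trans Finset.subset_union_left)
        (by rw [hx.2]; exact Finset.subset_union_right))
    have hBB3 : B2 ⊆ B2 ∪ cmp M K H x.1 := Finset.subset_union_left
    refine ⟨B', w', hc', (hBB2.trans hBB3).trans hB3B', hB'K, ?_, ?_⟩
    · intro y hy
      rcases List.mem_cons.1 hy with h | h
      · rw [h, hx.2]
        exact Finset.subset_union_right.trans hB3B'
      · exact hxs' y h
    · have e1 := GS1_card hBB2 (hBB3.trans hB3B')
      have e2 := GS1_card hBB3 hB3B'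
      rw [e1, e2]
      simp only [cst]
      have h6 : 0 ≤ (((B2 ∪ cmp M K H x.1) \ B2).card : ℝ) * kP N q p c :=
        mul_nonneg (Nat.cast_nonneg _) hkP
      rw [mul_add (Real.log (1 + (b : ℝ) / (m : ℝ)))]
      nlinarith

end Pool.Agent.helper42.CQ
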