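import Pool.Agent.helper42.CQ.SpecC

set_option autoImplicit false

namespace Pool.Agent.helper42.CQ

open Finset Pool.Agent.helper24.CG

theorem LM3 (hL3A : L3A_stmt) (hWTA : WTA_stmt) (hWTB : WTB_stmt) : LM3_stmt := by
  intro N m b q p M k s c R H₂ H₁ K X hN hm hb hq hp hc hM hk hs hH hK hsm hR
  have hH1 : Hist N m H₁ := ⟨(List.pairwise_append.1 hH.disj).2.1,
    fun E hE => hH.mem E (List.mem_append_right _ hE)⟩
  have hH2 : Hist N m H₂ := ⟨(List.pairwise_append.1 hH.disj).1,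
    fun E hE => hH.mem E (List.mem_append_left _ hE)⟩
  have hβ : 0 < Real.log (1 + (b : ℝ) / (m : ℝ)) := by
    apply Real.log_pos
    have h1 : (0 : ℝ) < (b : ℝ) := by exact_mod_cast hb
    have h2 : (0 : ℝ) < (m : ℝ) := by exact_mod_cast hm
    have : (0 : ℝ) < (b : ℝ) / (m : ℝ) := by positivity
    linarith
  obtain ⟨Y, w, hGY, hYK, hch, hw⟩ := hL3A N m b q p M k s c H₁ K X hN hm hb hq hp hc hM hk hs
    hH1 hK hsm
  refine ⟨Y, hGY, hYK, ?_⟩
  have h1 := hR w hch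
  have h2 := (hWTB N m b K H₂ hm hb hH2).2
  have h3 : ∑ e ∈ ed K, wt b m K (H₂ ++ H₁) e =
      ∑ e ∈ ed K, wt b m K H₂ e + ∑ e ∈ ed K, wt b m K H₁ e := by
    rw [← Finset.sum_add_distrib]
    exact Finset.sum_congr rfl fun e _ => (hWTA N m b K (H₂ ++ H₁) hm hb hH).2.1 H₂ H₁ e rfl
  have h4 : gf b m K H₁ (Real.log N / Real.log (1 + (b : ℝ) / (m : ℝ))) K =
      (q : ℝ) * (Real.log N / Real.log (1 + (b : ℝ) / (m : ℝ))) -
        ∑ e ∈ ed K, wt b m K H₁ e := by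
    unfold gf
    rw [hK]
  rw [h4] at hw
  rw [← h2] at h1
  rw [h3]
  generalize 1 / (s : ℝ) * ∑ v ∈ Gs M K s H₁, (Real.log N / Real.log (1 + (b : ℝ) / (m : ℝ)) -
          min (wv b m K H₁ v (Gs M K s H₁)) (Real.log N / Real.log (1 + (b : ℝ) / (m : ℝ))) / 2) =
    S at hw ⊢
  generalize Real.log N / Real.log (1 + (b : ℝ) / (m : ℝ)) = l at hw ⊢
  generalize gf b m K H₁ l Y = gY at hw ⊢
  generalize ∑ e ∈ ed K, wt b m K H₁ e = S1 at hw ⊢
  generalize ∑ e ∈ ed K, wt b m K H₂ e = S2 at h1 ⊢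
  generalize kF N m b q p + kP N q p c = kk at hw ⊢
  generalize Real.log (1 + (b : ℝ) / (m : ℝ)) = β at *
  have h5 : gY - S - ((q : ℝ) * l - (S2 + S1) + (q : ℝ) / (k : ℝ) * l + (q : ℝ)) ≤
      (R + ((q : ℝ) + 2) * kk) / β := by
    rw [le_div_iff₀ hβ]
    nlinarith
  linarith

end Pool.Agent.helper42.CQ
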